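import Pool.Agent.Lib.MP_b07864_co.AP.F4

/-!
# Axis-parallel dissections of the L-tromino into a prime number of congruent pieces (MP_b07864_co)
-/

namespace TrominoDissection

/-- The L-tromino `L = ([0,2] × [0,1]) ∪ ([0,1] × [0,2])`. -/
def Ltromino : Set (ℝ × ℝ) :=
  Set.Icc 0 2 ×ˢ Set.Icc 0 1 ∪ Set.Icc 0 1 ×ˢ Set.Icc 0 2

/-- `P 0, ..., P (n-1)` is a dissection of `L`: the sets `P i` are connected, compact, equal to the
closure of their interior, with pairwise disjoint interiors and with union `L`. -/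
structure IsDissection (n : ℕ) (P : Fin n → Set (ℝ × ℝ)) : Prop where
  compact : ∀ i, IsCompact (P i)
  connected : ∀ i, IsConnected (P i)
  regular : ∀ i, closure (interior (P i)) = P i
  disjoint : ∀ i j, i ≠ j → Disjoint (interior (P i)) (interior (P j))
  union : ⋃ i, P i = Ltromino

/-- The affine map `z ↦ R z + t` of the plane. -/
def motion (R : Matrix (Fin 2) (Fin 2) ℤ) (t z : ℝ × ℝ) : ℝ × ℝ :=
  (R 0 0 * z.1 + R 0 1 * z.2 + t.1, R 1 0 * z.1 + R 1 1 * z.2 + t.2)

/-- The pieces `P i` are congruent by axis-parallel isometries: `P i` is the image of one set `B`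
under the isometry `z ↦ R i z + t i`, whose linear part `R i` is an orthogonal matrix with integer
entries (one of the eight symmetries of the square). -/
def AxisParallel (n : ℕ) (P : Fin n → Set (ℝ × ℝ)) (R : Fin n → Matrix (Fin 2) (Fin 2) ℤ) : Prop :=
  (∀ i, R i * (R i).transpose = 1) ∧
    ∃ (B : Set (ℝ × ℝ)) (t : Fin n → ℝ × ℝ), ∀ i, P i = motion (R i) (t i) '' B

open APd

lemma exists_SP (R : Matrix (Fin 2) (Fin 2) ℤ) (h : R * R.transpose = 1) : ∃ g : SP, g.mat = R := by
  have h00 : R 0 0 * R 0 0 + R 0 1 * R 0 1 = 1 := by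
    have := congrFun (congrFun h 0) 0
    simpa [Matrix.mul_apply, Fin.sum_univ_two] using this
  have h11 : R 1 0 * R 1 0 + R 1 1 * R 1 1 = 1 := by
    have := congrFun (congrFun h 1) 1
    simpa [Matrix.mul_apply, Fin.sum_univ_two] using this
  have h01 : R 0 0 * R 1 0 + R 0 1 * R 1 1 = 0 := by
    have := congrFun (congrFun h 0) 1
    simpa [Matrix.mul_apply, Fin.sum_univ_two] using this
  have key : ∀ a b : ℤ, a * a + b * b = 1 → (a = 0 ∧ (b = 1 ∨ b = -1)) ∨
      (b = 0 ∧ (a = 1 ∨ a = -1)) := by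
    intro a b hab
    have ha : a ≤ 1 := by nlinarith
    have ha' : -1 ≤ a := by nlinarith
    have hb : b ≤ 1 := by nlinarith
    have hb' : -1 ≤ b := by nlinarith
    interval_cases a <;> interval_cases b <;> simp_all
  have ext4 : ∀ M : Matrix (Fin 2) (Fin 2) ℤ, M 0 0 = R 0 0 → M 0 1 = R 0 1 → M 1 0 = R 1 0 →
      M 1 1 = R 1 1 → M = R := by
    intro M e1 e2 e3 e4
    ext i j
    fin_cases i <;> fin_cases j <;> simp [e1, e2, e3, e4]
  rcases key _ _ h00 with ⟨h1, h2⟩ | ⟨h1, h2⟩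
  · have h3 : R 1 1 = 0 := by
      rw [h1] at h01
      rcases h2 with h2 | h2 <;> rw [h2] at h01 <;> linarith
    rcases key _ _ h11 with ⟨h4, h5⟩ | ⟨-, h5⟩
    · rw [h3] at h5; omega
    rcases h2 with h2 | h2 <;> rcases h5 with h5 | h5
    · exact ⟨⟨true, 1, 1⟩, ext4 _ (by simp [SP.mat, h1]) (by simp [SP.mat, h2])
        (by simp [SP.mat, h5]) (by simp [SP.mat, h3])⟩
    · exact ⟨⟨true, 1, -1⟩, ext4 _ (by simp [SP.mat, h1]) (by simp [SP.mat, h2])
        (by simp [SP.mat, h5]) (by simp [SP.mat, h3])⟩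
    · exact ⟨⟨true, -1, 1⟩, ext4 _ (by simp [SP.mat, h1]) (by simp [SP.mat, h2])
        (by simp [SP.mat, h5]) (by simp [SP.mat, h3])⟩
    · exact ⟨⟨true, -1, -1⟩, ext4 _ (by simp [SP.mat, h1]) (by simp [SP.mat, h2])
        (by simp [SP.mat, h5]) (by simp [SP.mat, h3])⟩
  · have h3 : R 1 0 = 0 := by
      rw [h1] at h01
      rcases h2 with h2 | h2 <;> rw [h2] at h01 <;> linarith
    rcases key _ _ h11 with ⟨-, h5⟩ | ⟨h4, h5⟩
    swap
    · rw [h3] at h5; omega
    rcases h2 with h2 | h2 <;> rcases h5 with h5 | h5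
    · exact ⟨⟨false, 1, 1⟩, ext4 _ (by simp [SP.mat, h2]) (by simp [SP.mat, h1])
        (by simp [SP.mat, h3]) (by simp [SP.mat, h5])⟩
    · exact ⟨⟨false, 1, -1⟩, ext4 _ (by simp [SP.mat, h2]) (by simp [SP.mat, h1])
        (by simp [SP.mat, h3]) (by simp [SP.mat, h5])⟩
    · exact ⟨⟨false, -1, 1⟩, ext4 _ (by simp [SP.mat, h2]) (by simp [SP.mat, h1])
        (by simp [SP.mat, h3]) (by simp [SP.mat, h5])⟩
    · exact ⟨⟨false, -1, -1⟩, ext4 _ (by simp [SP.mat, h2]) (by simp [SP.mat, h1])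
        (by simp [SP.mat, h3]) (by simp [SP.mat, h5])⟩

lemma motion_eq (g : SP) (t : ℝ × ℝ) : motion g.mat t = mv g t := by
  funext z
  obtain ⟨s, a, b⟩ := g
  rcases Int.units_eq_one_or a with rfl | rfl <;> rcases Int.units_eq_one_or b with rfl | rfl <;>
    cases s <;> simp [motion, mv, SP.mat, SP.smul_def, Prod.ext_iff]

end TrominoDissection

open TrominoDissection APd in
/-- Let `p > 3` be a prime and let the L-tromino be dissected into `p` pieces which are congruent by
axis-parallel isometries with linear parts `R i` (connected compact pieces, equal to the closure of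
their interior; arbitrary translations). Then
(i) two of the pieces differ by a quarter turn: `R i = J * R j` with `J = [[0,-1],[1,0]]`;
(ii) `p` divides the determinant of the sum of the linear parts;
(iii) if all the pieces are directly congruent (the `R i` have the same determinant), then
`p ≡ 1 mod 4`. -/
theorem Pool.Agent.Results.MP_b07864_co.AxisParallel.result :
    ∀ p : ℕ, p.Prime → 3 < p → ∀ (P : Fin p → Set (ℝ × ℝ)) (R : Fin p → Matrix (Fin 2) (Fin 2) ℤ),
      IsDissection p P → AxisParallel p P R →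
      (∃ i j, R i = !![0, -1; 1, 0] * R j) ∧ (p : ℤ) ∣ (∑ i, R i).det ∧
        ((∀ i j, (R i).det = (R j).det) → p % 4 = 1) := by
  intro p hp hp3 P R hP hR
  obtain ⟨hR1, B, t, hB⟩ := hR
  choose ρ hρ using fun i => exists_SP (R i) (hR1 i)
  have hpos : 0 < p := hp.pos
  let i0 : Fin p := ⟨0, hpos⟩
  -- replace the base set `B` by the piece `P i0`
  have hm : ∀ i, P i = mv (ρ i) (t i) '' B := fun i => by rw [hB i, ← hρ i, motion_eq]
  have hinv : ∀ i, P i = mv (ρ i * (ρ i0)⁻¹) (t i - (ρ i * (ρ i0)⁻¹) • t i0) '' P i0 := by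
    intro i
    rw [hm i, hm i0, Set.image_image]
    refine Set.image_congr fun z _ => ?_
    simp only [mv, smul_add, ← mul_smul, inv_mul_cancel_right]
    abel
  have hD : Diss (Fin p) (P i0) (fun i => ρ i * (ρ i0)⁻¹)
      (fun i => t i - (ρ i * (ρ i0)⁻¹) • t i0) := by
    refine ⟨hP.compact i0, hP.connected i0, hP.regular i0, fun i j hij => ?_, ?_⟩
    · rw [← hinv i, ← hinv j]; exact hP.disjoint i j hij
    · have : (⋃ i, mv (ρ i * (ρ i0)⁻¹) (t i - (ρ i * (ρ i0)⁻¹) • t i0) '' P i0) = ⋃ i, P i :=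
        Set.iUnion_congr fun i => (hinv i).symm
      rw [this, hP.union]
      rfl
  obtain ⟨h1, h2, h3⟩ := F4 hp hp3 (Fintype.card_fin p) hD
  have hsum : (∑ i, (ρ i * (ρ i0)⁻¹).mat) = (∑ i, R i) * ((ρ i0)⁻¹).mat := by
    rw [Finset.sum_mul]
    exact Finset.sum_congr rfl fun i _ => by rw [mat_mul, hρ]
  refine ⟨?_, ?_, ?_⟩
  · obtain ⟨i, j, hij⟩ := h1
    refine ⟨i, j, ?_⟩
    have h4 : ρ i = qt * ρ j := by simpa [← mul_assoc] using hij
    rw [← hρ i, ← hρ j, h4, mat_mul]
    congr 1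
  · rw [hsum, Matrix.det_mul, mat_det] at h2
    rcases units_cast (dt (ρ i0)⁻¹) with h4 | h4 <;> rw [h4] at h2
    · simpa using h2
    · simpa using h2
  · intro hd
    refine h3 fun i j => ?_
    have h5 : dt (ρ i) = dt (ρ j) := by
      apply Units.ext
      rw [← mat_det, ← mat_det, hρ, hρ]
      exact hd i j
    simp only [dt_mul, h5]
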